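import Pool.Agent.P.MP_0e1fd4_co.OnM

namespace Pool.Agent.Results.MP_0e1fd4_co.Online

open Pool.Agent.P.MP_0e1fd4_co.On

/-- Planar graphs without chorded 6-cycles are online DP-4-colourable. A position is a set `S` of
uncoloured vertices with tokens `t`; `W` is a set of positions the painter never has to leave. -/
theorem result :
    ∀ (V : Type) [Fintype V] (G : SimpleGraph V),
      (∃ (p : V → ℝ × ℝ) (γ : V → V → ℝ → ℝ × ℝ),
        Function.Injective p ∧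
        (∀ u v, G.Adj u v →
          ContinuousOn (γ u v) (Set.Icc 0 1) ∧ Set.InjOn (γ u v) (Set.Icc 0 1) ∧
          γ u v 0 = p u ∧ γ u v 1 = p v ∧
          ∀ t ∈ Set.Ioo (0 : ℝ) 1, ∀ w, γ u v t ≠ p w) ∧
        (∀ u v u' v', G.Adj u v → G.Adj u' v' → s(u, v) ≠ s(u', v') →
          ∀ t ∈ Set.Ioo (0 : ℝ) 1, ∀ t' ∈ Set.Ioo (0 : ℝ) 1, γ u v t ≠ γ u' v' t')) →
      (∀ (v : V) (c : G.Walk v v), c.IsCycle → c.length = 6 →
        ∀ x ∈ c.support, ∀ y ∈ c.support, G.Adj x y → s(x, y) ∈ c.edges) →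
      ∃ W : Set V → (V → ℕ) → Prop,
        (W Set.univ fun _ => 4) ∧
        (∀ K : Set V, G.IsClique K → K.ncard ≤ 3 →
          W {v | v ∉ K} fun v => 4 - (G.neighborSet v ∩ K).ncard) ∧
        ∀ S t, W S t → (∀ v ∈ S, 1 ≤ t v) ∧
          ∀ (H : SimpleGraph (V × ℕ)) (L : V → Finset ℕ),
            (∀ x y, H.Adj x y → G.Adj x.1 y.1) →
            (∀ x y y', H.Adj x y → H.Adj x y' → y.1 = y'.1 → y = y') →
            (∀ v ∈ S, (L v).card ≤ t v) →
            ∃ c : V → Option ℕ, (∀ v a, c v = some a → v ∈ S ∧ a ∈ L v) ∧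
              (∀ u a v b, c u = some a → c v = some b → ¬ H.Adj (u, a) (v, b)) ∧
              W {v ∈ S | c v = none} fun v => t v - (L v).card :=
  fun _ _ G hp h6 => ⟨fun S t => ∀ n, Survives G n S t,
    fun n => by simpa using main G hp h6 ∅ (by simp) (by simp) n,
    fun K hK h3 n => main G hp h6 K hK h3 n, safe_all G⟩

/-- Q1 as posed follows from one round of the game. -/
theorem posed :
    ∀ (V : Type) [Fintype V] (G : SimpleGraph V),
      (∃ (p : V → ℝ × ℝ) (γ : V → V → ℝ → ℝ × ℝ),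
        Function.Injective p ∧
        (∀ u v, G.Adj u v →
          ContinuousOn (γ u v) (Set.Icc 0 1) ∧ Set.InjOn (γ u v) (Set.Icc 0 1) ∧
          γ u v 0 = p u ∧ γ u v 1 = p v ∧
          ∀ t ∈ Set.Ioo (0 : ℝ) 1, ∀ w, γ u v t ≠ p w) ∧
        (∀ u v u' v', G.Adj u v → G.Adj u' v' → s(u, v) ≠ s(u', v') →
          ∀ t ∈ Set.Ioo (0 : ℝ) 1, ∀ t' ∈ Set.Ioo (0 : ℝ) 1, γ u v t ≠ γ u' v' t')) →
      (∀ (v : V) (c : G.Walk v v), c.IsCycle → c.length = 6 →
        ∀ x ∈ c.support, ∀ y ∈ c.support, G.Adj x y → s(x, y) ∈ c.edges) →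
      ∀ (s : ℕ) (H : SimpleGraph (V × Fin s)),
        (∀ x y, H.Adj x y → G.Adj x.1 y.1) →
        (∀ x y y', H.Adj x y → H.Adj x y' → y.1 = y'.1 → y = y') →
        ∀ f : V × Fin s → ℕ, (∀ x, f x = 0 ∨ f x = 1) → (∀ v, 4 ≤ ∑ i, f (v, i)) →
          ∃ T : V → Fin s, (∀ v, f (v, T v) = 1) ∧ ∀ u v, ¬ H.Adj (u, T u) (v, T v) :=
  fun V _ G hp h6 => by
    obtain ⟨W, h1, -, h2⟩ := result V G hp h6
    exact one_round (Safe.survives h2 1 h1)

/-- Control: there is no such set of positions for the complete graph on five vertices. -/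
theorem control_complete_five :
    ¬ ∃ W : Set (Fin 5) → (Fin 5 → ℕ) → Prop,
        (W Set.univ fun _ => 4) ∧
        ∀ S t, W S t → (∀ v ∈ S, 1 ≤ t v) ∧
          ∀ (H : SimpleGraph (Fin 5 × ℕ)) (L : Fin 5 → Finset ℕ),
            (∀ x y, H.Adj x y → x.1 ≠ y.1) →
            (∀ x y y', H.Adj x y → H.Adj x y' → y.1 = y'.1 → y = y') →
            (∀ v ∈ S, (L v).card ≤ t v) →
            ∃ c : Fin 5 → Option ℕ, (∀ v a, c v = some a → v ∈ S ∧ a ∈ L v) ∧
              (∀ u a v b, c u = some a → c v = some b → ¬ H.Adj (u, a) (v, b)) ∧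
              W {v ∈ S | c v = none} fun v => t v - (L v).card :=
  fun ⟨_, h1, h2⟩ => not_k5 (Safe.survives (G := ⊤) h2 1 h1)

end Pool.Agent.Results.MP_0e1fd4_co.Online
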